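import Mathlib

/-!
# Edges and the maximum forcing number (MP_f5b231_co)

Every graph `G` on `2n` vertices with a perfect matching satisfies `e(G) ≥ n² / (n - F(G))`.

Proof.  Let `M` be a perfect matching.  For each edge of `M` let `x` be an end with the smaller degree,
and let `X` be the set of these vertices.  Write `x → x'` if `x` is adjacent to `x'` or to the partner
of `x'`.  Choose `x` with the smallest out-degree, put it into `T`, delete it and its out-neighbours,
and repeat: this gives a set `T` with at least `∑ 1 / (1 + d⁺(x)) ≥ ∑ 1 / deg x ≥ n² / e(G)` elements.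
The edges of `M` at the vertices outside `T` force `M`: the first chosen vertex of `T` can only be
matched to its partner, then the second, and so on.
-/

set_option autoImplicit false

open Finset

namespace Pool.Agent.Results.MP_f5b231_co.EdgeBound

/-- `M` is (the edge set of) a perfect matching of `G`. -/
def IsPerfectMatching {V : Type} (G : SimpleGraph V) (M : Set (Sym2 V)) : Prop :=
  M ⊆ G.edgeSet ∧ ∀ v : V, ∃! e, e ∈ M ∧ v ∈ e

/-- `S` is a forcing set of the perfect matching `M`. -/
def IsForcing {V : Type} (G : SimpleGraph V) (M S : Set (Sym2 V)) : Prop :=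
  S ⊆ M ∧ ∀ M', IsPerfectMatching G M' → S ⊆ M' → M' = M

/-- The forcing number `f(G, M)`: the minimum size of a forcing set of `M`. -/
noncomputable def forcingNumber {V : Type} (G : SimpleGraph V) (M : Set (Sym2 V)) : ℕ :=
  sInf {k | ∃ S, IsForcing G M S ∧ S.ncard = k}

/-- The maximum forcing number `F(G)`. -/
noncomputable def maxForcingNumber {V : Type} (G : SimpleGraph V) : ℕ :=
  sSup {k | ∃ M, IsPerfectMatching G M ∧ forcingNumber G M = k}

/-! ### The greedy choice -/

section greedy
variable {ι : Type} [DecidableEq ι] (R : ι → ι → Prop) [DecidableRel R]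

/-- the elements of `T` can be deleted one after the other, each without arrows to the rest -/
inductive Elim : Finset ι → Prop
  | nil : Elim ∅
  | step {T : Finset ι} (x : ι) : x ∈ T → (∀ y ∈ T, y ≠ x → ¬ R x y) → Elim (T.erase x) → Elim T

/-- out-degree in `A` -/
def outd (A : Finset ι) (x : ι) : ℕ := (A.filter (fun y => y ≠ x ∧ R x y)).card

theorem greedy (A : Finset ι) :
    ∃ T ⊆ A, Elim R T ∧ ∑ x ∈ A, (1 : ℚ) / (outd R A x + 1) ≤ T.card := by
  induction hn : A.card using Nat.strong_induction_on generalizing A with
  | _ n ih =>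
    rcases A.eq_empty_or_nonempty with rfl | hne
    · exact ⟨∅, Subset.refl _, Elim.nil, by simp⟩
    · obtain ⟨x, hx, hmin⟩ := exists_min_image A (outd R A) hne
      set B := A.filter (fun y => y ≠ x ∧ ¬ R x y) with hB
      have hBA : B ⊆ A := filter_subset _ _
      have hxB : x ∉ B := by simp [hB]
      have hcard : B.card < n := by
        rw [← hn]
        exact card_lt_card ⟨hBA, fun h => hxB (h hx)⟩
      obtain ⟨T, hT, hE, hsum⟩ := ih B.card hcard B rfl
      have hxT : x ∉ T := fun h => hxB (hT h)
      refine ⟨insert x T, ?_, ?_, ?_⟩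
      · exact insert_subset hx (hT.trans hBA)
      · refine Elim.step x (mem_insert_self _ _) ?_ ?_
        · intro y hy hyx
          have h1 := hT ((mem_insert.1 hy).resolve_left hyx)
          rw [hB, mem_filter] at h1
          exact h1.2.2
        · rw [erase_insert hxT]; exact hE
      · rw [card_insert_of_notMem hxT]
        have hsplit : ∑ y ∈ A, (1 : ℚ) / (outd R A y + 1) =
            ∑ y ∈ B, (1 : ℚ) / (outd R A y + 1) + ∑ y ∈ A \ B, (1 : ℚ) / (outd R A y + 1) := by
          rw [add_comm, sum_sdiff hBA]
        have h1 : ∑ y ∈ B, (1 : ℚ) / (outd R A y + 1) ≤ ∑ y ∈ B, (1 : ℚ) / (outd R B y + 1) := by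
          refine sum_le_sum fun y _ => ?_
          have h2 : outd R B y ≤ outd R A y := card_le_card (filter_subset_filter _ hBA)
          have h3 : (outd R B y : ℚ) ≤ outd R A y := by exact_mod_cast h2
          apply one_div_le_one_div_of_le (by positivity)
          linarith
        have h4 : ∑ y ∈ A \ B, (1 : ℚ) / (outd R A y + 1) ≤ 1 := by
          have h5 : ∀ y ∈ A \ B, (1 : ℚ) / (outd R A y + 1) ≤ 1 / (outd R A x + 1) := by
            intro y hy
            have h6 := hmin y (mem_sdiff.1 hy).1
            have h7 : (outd R A x : ℚ) ≤ outd R A y := by exact_mod_cast h6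
            apply one_div_le_one_div_of_le (by positivity)
            linarith
          have h8 : (A \ B).card ≤ outd R A x + 1 := by
            have h9 : A \ B ⊆ insert x (A.filter (fun y => y ≠ x ∧ R x y)) := by
              intro y hy
              rw [mem_sdiff, hB, mem_filter] at hy
              rw [mem_insert, mem_filter]
              by_cases hyx : y = x
              · exact Or.inl hyx
              · right
                refine ⟨hy.1, hyx, ?_⟩
                by_contra hc
                exact hy.2 ⟨hy.1, hyx, hc⟩
            exact (card_le_card h9).trans (card_insert_le _ _)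
          calc ∑ y ∈ A \ B, (1 : ℚ) / (outd R A y + 1) ≤ ∑ y ∈ A \ B, 1 / ((outd R A x : ℚ) + 1) :=
                sum_le_sum h5
            _ = (A \ B).card * (1 / ((outd R A x : ℚ) + 1)) := by rw [sum_const, nsmul_eq_mul]
            _ ≤ (outd R A x + 1) * (1 / ((outd R A x : ℚ) + 1)) := by
                gcongr
                exact_mod_cast h8
            _ = 1 := by field_simp
        push_cast
        linarith

end greedy

/-! ### Perfect matchings -/

section pm
variable {V : Type} {G : SimpleGraph V} {M : Set (Sym2 V)}

theorem exists_partner (h : IsPerfectMatching G M) (v : V) : ∃ w, s(v, w) ∈ M := by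
  obtain ⟨e, ⟨he, hv⟩, _⟩ := h.2 v
  obtain ⟨w, rfl⟩ := Sym2.mem_iff_exists.1 hv
  exact ⟨w, he⟩

theorem partner_unique (h : IsPerfectMatching G M) {v w w' : V} (h1 : s(v, w) ∈ M)
    (h2 : s(v, w') ∈ M) : w = w' := by
  have h3 := (h.2 v).unique ⟨h1, Sym2.mem_mk_left v w⟩ ⟨h2, Sym2.mem_mk_left v w'⟩
  exact Sym2.congr_right.1 h3

/-- the partner in a perfect matching -/
noncomputable def par (h : IsPerfectMatching G M) (v : V) : V := (exists_partner h v).choose

theorem par_mem (h : IsPerfectMatching G M) (v : V) : s(v, par h v) ∈ M :=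
  (exists_partner h v).choose_spec

theorem par_eq (h : IsPerfectMatching G M) {v w : V} (h1 : s(v, w) ∈ M) : par h v = w :=
  partner_unique h (par_mem h v) h1

theorem par_par (h : IsPerfectMatching G M) (v : V) : par h (par h v) = v :=
  par_eq h (by rw [Sym2.eq_swap]; exact par_mem h v)

theorem par_adj (h : IsPerfectMatching G M) (v : V) : G.Adj v (par h v) :=
  h.1 (par_mem h v)

theorem par_ne (h : IsPerfectMatching G M) (v : V) : par h v ≠ v := (par_adj h v).ne'

theorem mem_iff (h : IsPerfectMatching G M) (v w : V) : s(v, w) ∈ M ↔ par h v = w :=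
  ⟨par_eq h, fun h1 => h1 ▸ par_mem h v⟩

end pm

/-! ### The main argument -/

section main
variable {V : Type} [Fintype V] {G : SimpleGraph V} {M : Set (Sym2 V)}

open Classical in
/-- one end with the smaller degree of every edge of `M` -/
noncomputable def low (h : IsPerfectMatching G M) : Finset V :=
  univ.filter fun v => G.degree v < G.degree (par h v) ∨
    (G.degree v = G.degree (par h v) ∧ Fintype.equivFin V v < Fintype.equivFin V (par h v))

theorem mem_low_iff (h : IsPerfectMatching G M) (v : V) : v ∈ low h ↔ par h v ∉ low h := by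
  classical
  have hne : Fintype.equivFin V v ≠ Fintype.equivFin V (par h v) := fun h1 =>
    par_ne h v ((Fintype.equivFin V).injective h1).symm
  rw [low, mem_filter, mem_filter, par_par]
  simp only [mem_univ, true_and]
  constructor
  · rintro (h1 | ⟨h1, h2⟩) (h3 | ⟨h3, h4⟩)
    · omega
    · omega
    · omega
    · exact absurd h4 (not_lt.2 h2.le)
  · intro h1
    push Not at h1
    rcases lt_trichotomy (G.degree v) (G.degree (par h v)) with h2 | h2 | h2
    · exact Or.inl h2
    · exact Or.inr ⟨h2, lt_of_le_of_ne (h1.2 h2.symm) hne⟩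
    · exact absurd h1.1 (not_le.2 h2)

open Classical in
theorem low_degree (h : IsPerfectMatching G M) {v : V} (hv : v ∈ low h) :
    G.degree v ≤ G.degree (par h v) := by
  rw [low, mem_filter] at hv
  rcases hv.2 with h1 | h1
  · exact h1.le
  · exact h1.1.le

open Classical in
theorem sum_low (h : IsPerfectMatching G M) (f : V → ℕ) :
    ∑ v, f v = ∑ x ∈ low h, (f x + f (par h x)) := by
  rw [← Finset.sum_add_sum_compl (low h) f, sum_add_distrib]
  congr 1
  refine Finset.sum_nbij' (par h) (par h) ?_ ?_ ?_ ?_ ?_
  · intro v hv
    rw [mem_compl] at hv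
    by_contra h1
    exact hv ((mem_low_iff h v).2 h1)
  · intro v hv
    rw [mem_compl]
    exact (mem_low_iff h v).1 hv
  · intro v _; exact par_par h v
  · intro v _; exact par_par h v
  · intro v _; rw [par_par]

/-- `x` sees the edge of the matching at `y` -/
def Sees (h : IsPerfectMatching G M) (x y : V) : Prop := G.Adj x y ∨ G.Adj x (par h y)

open Classical in
theorem outd_le (h : IsPerfectMatching G M) {x : V} (hx : x ∈ low h) :
    outd (Sees h) (low h) x + 1 ≤ G.degree x := by
  have h1 : outd (Sees h) (low h) x ≤ ((G.neighborFinset x).erase (par h x)).card := by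
    refine card_le_card_of_injOn (fun y => if G.Adj x y then y else par h y) ?_ ?_
    · intro y hy
      rw [coe_filter, Set.mem_ofPred_eq] at hy
      obtain ⟨hy1, hy2, hy3⟩ := hy
      rw [mem_coe, mem_erase, SimpleGraph.mem_neighborFinset]
      by_cases h2 : G.Adj x y
      · simp only [if_pos h2]
        refine ⟨?_, h2⟩
        rintro rfl
        exact (mem_low_iff h x).1 hx hy1
      · simp only [if_neg h2]
        refine ⟨?_, hy3.resolve_left h2⟩
        intro h3
        apply hy2
        rw [← par_par h y, h3, par_par]
    · intro y hy z hz hyz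
      rw [coe_filter, Set.mem_ofPred_eq] at hy hz
      simp only at hyz
      by_cases h2 : G.Adj x y <;> by_cases h3 : G.Adj x z
      · rwa [if_pos h2, if_pos h3] at hyz
      · rw [if_pos h2, if_neg h3] at hyz
        exact absurd (hyz ▸ hy.1) ((mem_low_iff h z).1 hz.1)
      · rw [if_neg h2, if_pos h3] at hyz
        exact absurd (hyz.symm ▸ hz.1) ((mem_low_iff h y).1 hy.1)
      · rw [if_neg h2, if_neg h3] at hyz
        rw [← par_par h y, hyz, par_par]
  have h2 : par h x ∈ G.neighborFinset x := by
    rw [SimpleGraph.mem_neighborFinset]; exact par_adj h x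
  rw [card_erase_of_mem h2, SimpleGraph.card_neighborFinset_eq_degree] at h1
  have h3 : 0 < G.degree x := by
    rw [← SimpleGraph.card_neighborFinset_eq_degree]; exact card_pos.2 ⟨_, h2⟩
  omega

open Classical in
theorem force_aux (h : IsPerfectMatching G M) {M' : Set (Sym2 V)} (h' : IsPerfectMatching G M')
    {T : Finset V} (hE : Elim (Sees h) T) (hT : T ⊆ low h)
    (hS : ∀ x ∈ low h, x ∉ T → par h' x = par h x) : ∀ x ∈ low h, par h' x = par h x := by
  induction hE with
  | nil => intro x hx; exact hS x hx (notMem_empty x)
  | @step T x hxT hno _ ih =>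
    refine ih ((erase_subset _ _).trans hT) ?_
    intro y hy hyT
    by_cases hyx : y = x
    · subst hyx
      -- the partner of `y` in `M'` is an end of the `M`-edge at some `z` in `low h`
      have hadj := par_adj h' y
      have hpp := par_par h' y
      set w := par h' y with hw
      by_cases hwl : w ∈ low h
      · -- `w` itself is low
        exfalso
        by_cases hwT : w ∈ T
        · exact hno w hwT hadj.ne' (Or.inl hadj)
        · have h1 := hS w hwl hwT
          rw [hpp] at h1
          exact (mem_low_iff h w).1 hwl (h1 ▸ hy)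
      · have hpl : par h w ∈ low h := by
          by_contra h1
          exact hwl ((mem_low_iff h w).2 h1)
        by_cases hpT : par h w ∈ T
        · by_cases hpy : par h w = y
          · rw [← hpy, par_par]
          · exfalso
            refine hno _ hpT hpy (Or.inr ?_)
            rw [par_par]; exact hadj
        · exfalso
          have h1 := hS _ hpl hpT
          rw [par_par] at h1
          -- `par h' (par h w) = w`, so `par h w = par h' w = y`
          have h2 : par h w = y := by
            rw [← par_par h' (par h w), h1, hpp]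
          exact hpT (h2 ▸ hxT)
    · exact hS y hy fun h1 => hyT (mem_erase.2 ⟨hyx, h1⟩)

open Classical in
theorem forcing_of_elim (h : IsPerfectMatching G M) {T : Finset V} (hE : Elim (Sees h) T)
    (hT : T ⊆ low h) :
    IsForcing G M (((low h \ T).image fun x => s(x, par h x) : Finset (Sym2 V)) : Set (Sym2 V)) := by
  constructor
  · intro e he
    rw [mem_coe, mem_image] at he
    obtain ⟨x, _, rfl⟩ := he
    exact par_mem h x
  · intro M' h' hS
    have h1 : ∀ x ∈ low h, par h' x = par h x := by
      refine force_aux h h' hE hT ?_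
      intro x hx hxT
      apply par_eq
      apply hS
      rw [mem_coe, mem_image]
      exact ⟨x, mem_sdiff.2 ⟨hx, hxT⟩, rfl⟩
    have h2 : ∀ v, par h' v = par h v := by
      intro v
      by_cases hv : v ∈ low h
      · exact h1 v hv
      · have h3 : par h v ∈ low h := by
          by_contra h4
          exact hv ((mem_low_iff h v).2 h4)
        have h5 := h1 _ h3
        rw [par_par] at h5
        rw [← h5, par_par, h5]
    ext e
    induction e using Sym2.ind with
    | _ v w => rw [mem_iff h', mem_iff h, h2]

theorem forcingNumber_le (h : IsPerfectMatching G M) {n : ℕ} (hV : Fintype.card V = 2 * n) :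
    (n : ℚ) ^ 2 ≤ ((n : ℚ) - forcingNumber G M) * G.edgeSet.ncard := by
  classical
  obtain ⟨T, hT, hE, hsum⟩ := greedy (Sees h) (low h)
  have hcard : (low h).card = n := by
    have h1 := sum_low h (fun _ => 1)
    simp only [sum_const, smul_eq_mul, mul_one, card_univ, hV] at h1
    omega
  have hf : forcingNumber G M ≤ n - T.card := by
    have h1 : forcingNumber G M ≤ ((low h \ T).image fun x => s(x, par h x)).card := by
      apply Nat.sInf_le
      exact ⟨_, forcing_of_elim h hE hT, Set.ncard_coe_finset _⟩
    refine h1.trans (card_image_le.trans ?_)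
    rw [card_sdiff_of_subset hT, hcard]
  have hTn : T.card ≤ n := hcard ▸ card_le_card hT
  have hf' : (forcingNumber G M : ℚ) ≤ n - T.card := by
    have h1 : forcingNumber G M + T.card ≤ n := by omega
    have h2 : (forcingNumber G M : ℚ) + T.card ≤ n := by exact_mod_cast h1
    linarith
  -- edges
  have hedge : ∑ x ∈ low h, G.degree x ≤ G.edgeSet.ncard := by
    have h1 := sum_low h (fun v => G.degree v)
    rw [SimpleGraph.sum_degrees_eq_twice_card_edges] at h1
    have h2 : ∑ x ∈ low h, (G.degree x + G.degree x) ≤
        ∑ x ∈ low h, (G.degree x + G.degree (par h x)) :=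
      sum_le_sum fun x hx => Nat.add_le_add_left (low_degree h hx) _
    rw [← h1, sum_add_distrib] at h2
    have h3 : G.edgeSet.ncard = G.edgeFinset.card := by
      rw [← SimpleGraph.coe_edgeFinset, Set.ncard_coe_finset]
    omega
  have hpos : ∀ x ∈ low h, (0 : ℚ) < G.degree x := by
    intro x hx
    have := outd_le h hx
    have h2 : 0 < G.degree x := by omega
    exact_mod_cast h2
  have hcs : (∑ x ∈ low h, (1 : ℚ)) ^ 2 ≤
      (∑ x ∈ low h, (1 : ℚ) / G.degree x) * ∑ x ∈ low h, (G.degree x : ℚ) := by
    refine sum_sq_le_sum_mul_sum_of_sq_eq_mul _ (fun x hx => ?_) (fun x hx => ?_) (fun x hx => ?_)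
    · have := hpos x hx; positivity
    · exact (hpos x hx).le
    · have := hpos x hx; field_simp
  have hT1 : ∑ x ∈ low h, (1 : ℚ) / G.degree x ≤ T.card := by
    refine le_trans (sum_le_sum fun x hx => ?_) hsum
    have h1 := outd_le h hx
    have h2 : (outd (Sees h) (low h) x : ℚ) + 1 ≤ G.degree x := by exact_mod_cast h1
    apply one_div_le_one_div_of_le (by positivity) h2
  have hedge' : ∑ x ∈ low h, (G.degree x : ℚ) ≤ G.edgeSet.ncard := by exact_mod_cast hedge
  rw [sum_const, hcard, nsmul_eq_mul, mul_one] at hcs
  have h0 : (0 : ℚ) ≤ ∑ x ∈ low h, (G.degree x : ℚ) := sum_nonneg fun x hx => (hpos x hx).le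
  calc (n : ℚ) ^ 2 ≤ _ := hcs
    _ ≤ T.card * G.edgeSet.ncard := mul_le_mul hT1 hedge' h0 (by positivity)
    _ ≤ _ := by
        apply mul_le_mul_of_nonneg_right _ (by positivity)
        linarith

end main

/-- **Every graph `G` on `2n` vertices with a perfect matching satisfies `e(G) ≥ n² / (n - F(G))`.** -/
theorem result (V : Type) [Fintype V] (G : SimpleGraph V) (n : ℕ) (hn : 1 ≤ n)
    (hV : Fintype.card V = 2 * n) (hG : ∃ M, IsPerfectMatching G M) :
    maxForcingNumber G < n ∧
      (n : ℝ) ^ 2 / ((n : ℝ) - maxForcingNumber G) ≤ (G.edgeSet.ncard : ℝ) := by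
  have hle : ∀ M, IsPerfectMatching G M → forcingNumber G M < n := by
    intro M hM
    have h1 := forcingNumber_le hM hV
    by_contra h2
    push Not at h2
    have h3 : (n : ℚ) ≤ forcingNumber G M := by exact_mod_cast h2
    have h4 : ((n : ℚ) - forcingNumber G M) * G.edgeSet.ncard ≤ 0 :=
      mul_nonpos_of_nonpos_of_nonneg (by linarith) (by positivity)
    have h5 : (0 : ℚ) < (n : ℚ) ^ 2 := by positivity
    linarith
  have hmem : maxForcingNumber G ∈ {k | ∃ M, IsPerfectMatching G M ∧ forcingNumber G M = k} := by
    apply Nat.sSup_mem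
    · obtain ⟨M, hM⟩ := hG
      exact ⟨_, M, hM, rfl⟩
    · refine ⟨n, ?_⟩
      rintro k ⟨M, hM, rfl⟩
      exact (hle M hM).le
  obtain ⟨M, hM, hMf⟩ := hmem
  have h1 := hle M hM
  have h2 := forcingNumber_le hM hV
  rw [hMf] at h1 h2
  refine ⟨h1, ?_⟩
  have h3 : (maxForcingNumber G : ℝ) < n := by exact_mod_cast h1
  have h4 : (n : ℝ) ^ 2 ≤ ((n : ℝ) - maxForcingNumber G) * G.edgeSet.ncard := by exact_mod_cast h2
  rw [div_le_iff₀ (by linarith)]
  linarith

end Pool.Agent.Results.MP_f5b231_co.EdgeBound
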